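import Pool.Agent.Helper40.AC.Stmts

/-!
Project AC (MP_4c91e2_ag), packet P28: smooth families of normal projectors.
-/

open scoped ContDiff Topology Matrix
open Pool.Agent.Helper40.AC

namespace Pool.Agent.Helper18.AC

noncomputable section

/-! ### Algebra of projectors -/

/-- Trace of an idempotent matrix is the dimension of its range. -/
theorem trace_idem {ι : Type} [Fintype ι] [DecidableEq ι] (P : Matrix ι ι ℝ) (h : P * P = P) :
    P.trace = (Module.finrank ℝ (LinearMap.range (Matrix.toLin' P)) : ℝ) := by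
  have h1 : IsIdempotentElem (Matrix.toLin' P) := by
    show (Matrix.toLin' P).comp (Matrix.toLin' P) = Matrix.toLin' P
    rw [← Matrix.toLin'_mul, h]
  have h2 := (LinearMap.IsIdempotentElem.isProj_range _ h1).trace
  rw [← h2, LinearMap.trace_eq_matrix_trace ℝ (Pi.basisFun ℝ ι), LinearMap.toMatrix_eq_toMatrix',
    LinearMap.toMatrix'_toLin']

/-- A symmetric idempotent of trace zero vanishes. -/
theorem eq_zero_of_trace {ι : Type} [Fintype ι] [DecidableEq ι] (r : Matrix ι ι ℝ)
    (hs : rᵀ = r) (hi : r * r = r) (ht : r.trace = 0) : r = 0 := by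
  have h := (Matrix.trace_conjTranspose_mul_self_eq_zero_iff (A := r)).1
  apply h
  rw [Matrix.conjTranspose_eq_transpose_of_trivial, hs, hi, ht]

/-- The algebra of the packet. -/
theorem proj_alg {κ : Type} [Fintype κ] [DecidableEq κ] {ν : Type} [Fintype ν] [DecidableEq ν]
    {ι : Type} [Fintype ι] [DecidableEq ι]
    (N : Matrix ι ν ℝ) (D : Matrix ι κ ℝ) (Q : Matrix κ κ ℝ)
    (hN : Nᵀ * N = 1) (hND : Nᵀ * D = 0)
    (hs : (D * Q * Dᵀ)ᵀ = D * Q * Dᵀ) (hi : (D * Q * Dᵀ) * (D * Q * Dᵀ) = D * Q * Dᵀ)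
    (hD : (D * Q * Dᵀ) * D = D) :
    let p := 1 - N * Nᵀ - D * Q * Dᵀ
    pᵀ = p ∧ p * p = p ∧
      p.trace = (Fintype.card ι : ℝ) - Fintype.card ν - (D * Q * Dᵀ).trace ∧
      p * D = 0 ∧ p * N = 0 ∧
      (∀ q : Matrix ι ι ℝ, qᵀ = q → q * q = q → q.trace = p.trace → q * D = 0 → q * N = 0 →
        q = p) := by
  intro p
  have e1 : Nᵀ * (D * Q * Dᵀ) = 0 := by
    rw [Matrix.mul_assoc D, ← Matrix.mul_assoc Nᵀ, hND, Matrix.zero_mul]
  have e2 : (D * Q * Dᵀ) * N = 0 := by
    have := congrArg Matrix.transpose e1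
    rw [Matrix.transpose_mul, Matrix.transpose_transpose, hs, Matrix.transpose_zero] at this
    exact this
  have e3 : (N * Nᵀ) * (N * Nᵀ) = N * Nᵀ := by
    rw [Matrix.mul_assoc, ← Matrix.mul_assoc Nᵀ, hN, Matrix.one_mul]
  have e4 : (N * Nᵀ) * (D * Q * Dᵀ) = 0 := by
    rw [Matrix.mul_assoc, e1, Matrix.mul_zero]
  have e5 : (D * Q * Dᵀ) * (N * Nᵀ) = 0 := by
    rw [← Matrix.mul_assoc, e2, Matrix.zero_mul]
  have hps : pᵀ = p := by
    show (1 - N * Nᵀ - D * Q * Dᵀ)ᵀ = 1 - N * Nᵀ - D * Q * Dᵀ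
    rw [Matrix.transpose_sub, Matrix.transpose_sub, hs, Matrix.transpose_one,
      Matrix.transpose_mul, Matrix.transpose_transpose]
  have hpi : p * p = p := by
    show (1 - N * Nᵀ - D * Q * Dᵀ) * (1 - N * Nᵀ - D * Q * Dᵀ) = 1 - N * Nᵀ - D * Q * Dᵀ
    generalize hP : D * Q * Dᵀ = P at *
    generalize hM : N * Nᵀ = M at *
    have : (1 - M - P) * (1 - M - P) = 1 - M - P - M + M * M + M * P - P + P * M + P * P := by
      noncomm_ring
    rw [this, e3, e4, e5, hi]
    abel
  have hpD : p * D = 0 := by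
    show (1 - N * Nᵀ - D * Q * Dᵀ) * D = 0
    rw [Matrix.sub_mul, Matrix.sub_mul, hD, Matrix.mul_assoc N, hND, Matrix.mul_zero,
      Matrix.one_mul]
    abel
  have hpN : p * N = 0 := by
    show (1 - N * Nᵀ - D * Q * Dᵀ) * N = 0
    rw [Matrix.sub_mul, Matrix.sub_mul, e2, Matrix.mul_assoc N, hN, Matrix.mul_one,
      Matrix.one_mul]
    abel
  refine ⟨hps, hpi, ?_, hpD, hpN, ?_⟩
  · show (1 - N * Nᵀ - D * Q * Dᵀ).trace = _
    rw [Matrix.trace_sub, Matrix.trace_sub, Matrix.trace_one, Matrix.trace_mul_comm N, hN,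
      Matrix.trace_one]
  · intro q hqs hqi hqt hqD hqN
    have f1 : q * p = q := by
      show q * (1 - N * Nᵀ - D * Q * Dᵀ) = q
      rw [Matrix.mul_sub, Matrix.mul_sub, ← Matrix.mul_assoc q N, hqN, Matrix.mul_assoc D,
        ← Matrix.mul_assoc q D, hqD, Matrix.zero_mul, Matrix.zero_mul, Matrix.mul_one]
      abel
    have f2 : p * q = q := by
      have := congrArg Matrix.transpose f1
      rwa [Matrix.transpose_mul, hps, hqs] at this
    have f3 : p - q = 0 := by
      apply eq_zero_of_trace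
      · rw [Matrix.transpose_sub, hps, hqs]
      · have : (p - q) * (p - q) = p * p - p * q - q * p + q * q := by noncomm_ring
        rw [this, hpi, f1, f2, hqi]
        abel
      · rw [Matrix.trace_sub, hqt, sub_self]
    exact (sub_eq_zero.1 f3).symm

/-- The dimension of the range of `D`. -/
theorem rank_alg {κ : Type} [Fintype κ] [DecidableEq κ]
    {ι : Type} [Fintype ι] [DecidableEq ι] (D : Matrix ι κ ℝ) (Q : Matrix κ κ ℝ)
    (hi : (D * Q * Dᵀ) * (D * Q * Dᵀ) = D * Q * Dᵀ)
    (hD : (D * Q * Dᵀ) * D = D) :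
    (Module.finrank ℝ (LinearMap.range (Matrix.toLin' D)) : ℝ) = (D * Q * Dᵀ).trace := by
  have : LinearMap.range (Matrix.toLin' D) = LinearMap.range (Matrix.toLin' (D * Q * Dᵀ)) := by
    apply le_antisymm
    · rintro _ ⟨v, rfl⟩
      refine ⟨Matrix.toLin' D v, ?_⟩
      simp only [Matrix.toLin'_apply, Matrix.mulVec_mulVec, hD]
    · rintro _ ⟨v, rfl⟩
      refine ⟨(Q * Dᵀ) *ᵥ v, ?_⟩
      simp only [Matrix.toLin'_apply, Matrix.mulVec_mulVec, Matrix.mul_assoc]
  rw [trace_idem _ hi, this]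

/-! ### Smoothness of matrix operations -/

section smooth

variable {E : Type} [NormedAddCommGroup E] [NormedSpace ℝ E]

/-- Entrywise smooth families of matrices. -/
def MS {m n : Type} (A : E → Matrix m n ℝ) : Prop := ∀ i j, ContDiff ℝ ∞ (fun q => A q i j)

theorem MS.mul {l m n : Type} [Fintype m] {A : E → Matrix l m ℝ} {B : E → Matrix m n ℝ}
    (hA : MS A) (hB : MS B) : MS (fun q => A q * B q) := by
  intro i j
  simp only [Matrix.mul_apply]
  exact ContDiff.sum fun k _ => (hA i k).mul (hB k j)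

theorem MS.add {m n : Type} {A B : E → Matrix m n ℝ} (hA : MS A) (hB : MS B) :
    MS (fun q => A q + B q) := fun i j => (hA i j).add (hB i j)

theorem MS.sub {m n : Type} {A B : E → Matrix m n ℝ} (hA : MS A) (hB : MS B) :
    MS (fun q => A q - B q) := fun i j => (hA i j).sub (hB i j)

theorem MS.transpose {m n : Type} {A : E → Matrix m n ℝ} (hA : MS A) :
    MS (fun q => (A q)ᵀ) := fun i j => hA j i

theorem MS.const {m n : Type} (A : Matrix m n ℝ) : MS (fun _ : E => A) :=
  fun _ _ => contDiff_const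

theorem MS.det {n : Type} [Fintype n] [DecidableEq n] {A : E → Matrix n n ℝ} (hA : MS A) :
    ContDiff ℝ ∞ (fun q => (A q).det) := by
  simp only [Matrix.det_apply']
  exact ContDiff.sum fun σ _ => contDiff_const.mul (contDiff_prod fun i _ => hA (σ i) i)

theorem MS.inv {n : Type} [Fintype n] [DecidableEq n] {A : E → Matrix n n ℝ} (hA : MS A)
    (h : ∀ q, (A q).det ≠ 0) : MS (fun q => (A q)⁻¹) := by
  intro i j
  have : (fun q => (A q)⁻¹ i j) = fun q => ((A q).det)⁻¹ *
      ((A q).updateRow j (Pi.single i 1)).det := by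
    funext q
    rw [Matrix.inv_def, Matrix.smul_apply, Matrix.adjugate_apply, Ring.inverse_eq_inv',
      smul_eq_mul]
  rw [this]
  refine (hA.det.inv h).mul (MS.det ?_)
  intro a b
  by_cases hab : a = j
  · subst hab
    simp only [Matrix.updateRow_self]
    exact contDiff_const
  · simp only [Matrix.updateRow_ne hab]
    exact hA a b

end smooth

/-! ### The normals of `V` -/

/-- The five unit normals. -/
def NN (z : Idx → ℝ) : Matrix Idx (Fin 4 ⊕ Unit) ℝ :=
  Matrix.of fun i k => Sum.elim (fun j => norC z j i) (fun _ => norS z i) k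

theorem NN_inl (z : Idx → ℝ) (i : Idx) (j : Fin 4) : NN z i (Sum.inl j) = norC z j i := rfl
theorem NN_inr (z : Idx → ℝ) (i : Idx) (j : Unit) : NN z i (Sum.inr j) = norS z i := rfl

theorem NN_orth (z : Idx → ℝ) (hz : z ∈ VV) : (NN z)ᵀ * NN z = 1 := by
  obtain ⟨h1, h2⟩ := hz
  ext k l
  rw [Matrix.mul_apply]
  rcases k with k | k <;> rcases l with l | l
  · simp only [Matrix.transpose_apply, NN_inl, Fintype.sum_sum_type, norC, Sum.elim_inl,
      Sum.elim_inr, ite_mul, zero_mul, Finset.sum_ite_eq', Finset.mem_univ, if_true,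
      Finset.sum_const_zero, add_zero]
    by_cases hkl : k = l
    · subst hkl
      have := h1 k
      simp only [if_true, Matrix.one_apply_eq]
      linarith [sq (cc z k), sq (ss z k)]
    · have hkl' : (Sum.inl k : Fin 4 ⊕ Unit) ≠ Sum.inl l := fun h => hkl (Sum.inl.inj h)
      simp only [hkl, if_false, mul_zero, add_zero, Matrix.one_apply_ne hkl']
  · simp [NN_inl, NN_inr, Fintype.sum_sum_type, norC, norS]
  · simp [NN_inl, NN_inr, Fintype.sum_sum_type, norC, norS]
  · simp only [Matrix.transpose_apply, NN_inr, Fintype.sum_sum_type, norS, Sum.elim_inl,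
      Sum.elim_inr, zero_mul, Finset.sum_const_zero, zero_add]
    have : k = l := rfl
    subst this
    rw [Matrix.one_apply_eq, ← h2]
    exact Finset.sum_congr rfl fun i _ => (sq _).symm

theorem tang {φ : (Fin 8 → ℝ) → (Idx → ℝ)} (hφ : DifferentiableAt ℝ φ 0)
    (hV : ∀ u, φ u ∈ VV) (u : Fin 8 → ℝ) :
    (∀ j, norC (φ 0) j ⬝ᵥ fderiv ℝ φ 0 u = 0) ∧ norS (φ 0) ⬝ᵥ fderiv ℝ φ 0 u = 0 := by
  have hc : ∀ i, HasFDerivAt (fun u => φ u i)
      ((ContinuousLinearMap.proj i).comp (fderiv ℝ φ 0)) 0 :=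
    hasFDerivAt_pi'.1 hφ.hasFDerivAt
  constructor
  · intro j
    have h1 := ((hc (Sum.inl j)).mul (hc (Sum.inl j))).add
      ((hc (Sum.inr (Sum.inl j))).mul (hc (Sum.inr (Sum.inl j))))
    have h2 : ((fun u => φ u (Sum.inl j)) * (fun u => φ u (Sum.inl j)) +
        (fun u => φ u (Sum.inr (Sum.inl j))) * (fun u => φ u (Sum.inr (Sum.inl j)))) =
        fun _ => (1 : ℝ) := by
      funext v
      have := (hV v).1 j
      simp only [cc, ss] at this
      simp only [Pi.add_apply, Pi.mul_apply]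
      linarith [sq (φ v (Sum.inl j)), sq (φ v (Sum.inr (Sum.inl j)))]
    rw [h2] at h1
    have h3 := congrArg (fun L : (Fin 8 → ℝ) →L[ℝ] ℝ => L u)
      (h1.unique (hasFDerivAt_const (1 : ℝ) (0 : Fin 8 → ℝ)))
    simp only [ContinuousLinearMap.add_apply, ContinuousLinearMap.smul_apply,
      ContinuousLinearMap.comp_apply, ContinuousLinearMap.proj_apply, smul_eq_mul,
      ContinuousLinearMap.zero_apply] at h3
    simp only [dotProduct, Fintype.sum_sum_type, norC, Sum.elim_inl, Sum.elim_inr, ite_mul,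
      zero_mul, Finset.sum_ite_eq', Finset.mem_univ, if_true, Finset.sum_const_zero, add_zero,
      cc, ss]
    linarith
  · have h1 := HasFDerivAt.fun_sum (u := Finset.univ)
      (fun (k : Fin 5) _ => (hc (Sum.inr (Sum.inr k))).fun_mul (hc (Sum.inr (Sum.inr k))))
    have h2 : (fun v => ∑ k : Fin 5, φ v (Sum.inr (Sum.inr k)) * φ v (Sum.inr (Sum.inr k))) =
        fun _ => (1 : ℝ) := by
      funext v
      have := (hV v).2
      simp only [ww] at this
      rw [← this]
      exact Finset.sum_congr rfl fun i _ => (sq _).symm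
    rw [h2] at h1
    have h3 := congrArg (fun L : (Fin 8 → ℝ) →L[ℝ] ℝ => L u)
      (h1.unique (hasFDerivAt_const (1 : ℝ) (0 : Fin 8 → ℝ)))
    simp only [ContinuousLinearMap.sum_apply, ContinuousLinearMap.add_apply,
      ContinuousLinearMap.smul_apply,
      ContinuousLinearMap.comp_apply, ContinuousLinearMap.proj_apply, smul_eq_mul,
      ContinuousLinearMap.zero_apply, Finset.sum_add_distrib] at h3
    simp only [dotProduct, Fintype.sum_sum_type, norS, Sum.elim_inl, Sum.elim_inr,
      zero_mul, Finset.sum_const_zero, zero_add, ww]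
    linarith

/-! ### The theorem -/

theorem fam_ok (h : S_GRAM) : S_FAM := by
  intro Ψ ε hΨ hper hV hε hεs hεi hεt hεD hinj
  -- smoothness of slices
  have hslice : ∀ t x, DifferentiableAt ℝ (Ψ t x) 0 := by
    intro t x
    have h1 : ContDiff ℝ ∞ (fun u : Fin 8 → ℝ => Ψ t x u) :=
      hΨ.comp (contDiff_const.prodMk (contDiff_const.prodMk contDiff_id))
    exact (h1.differentiable (by simp)).differentiableAt
  set D : ℝ → Ang → Matrix Idx (Fin 8) ℝ := fun t x =>
    LinearMap.toMatrix' (fderiv ℝ (Ψ t x) 0).toLinearMap with hDdef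
  have hDv : ∀ t x v, D t x *ᵥ v = fderiv ℝ (Ψ t x) 0 v := by
    intro t x v
    rw [hDdef]
    exact LinearMap.toMatrix'_mulVec _ _
  have hDe : ∀ t x i j, D t x i j = fderiv ℝ (Ψ t x) 0 (Pi.single j 1) i := by
    intro t x i j
    have := congrFun (hDv t x (Pi.single j 1)) i
    rw [← this, Matrix.mulVec_single_one]
    rfl
  have hDsm : MS (fun q : ℝ × Ang => D q.1 q.2) := by
    intro i j
    simp only [hDe]
    have h1 : ContDiff ℝ ∞ (Function.uncurry fun (q : ℝ × Ang) (u : Fin 8 → ℝ) =>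
        Ψ q.1 q.2 u) :=
      hΨ.comp ((contDiff_fst.comp contDiff_fst).prodMk
        ((contDiff_snd.comp contDiff_fst).prodMk contDiff_snd))
    have h2 : ContDiff ℝ ∞ (fun q : ℝ × Ang => fderiv ℝ (Ψ q.1 q.2) 0) :=
      ContDiff.fderiv (g := fun _ => (0 : Fin 8 → ℝ)) h1 contDiff_const (by simp)
    have h3 : ContDiff ℝ ∞ (fun q : ℝ × Ang => fderiv ℝ (Ψ q.1 q.2) 0 (Pi.single j 1)) :=
      h2.clm_apply contDiff_const
    exact (contDiff_pi.1 h3) i
  have hDper : ∀ t (x : Ang) (k : Fin 4), D t (x + Pi.single k (2 * Real.pi)) = D t x := by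
    intro t x k
    have h1 : Ψ t (x + Pi.single k (2 * Real.pi)) = Ψ t x := funext fun u => hper t x k u
    simp only [hDdef, h1]
  have hDε : ∀ t x, D t x * ε x = D t x := by
    intro t x
    apply Matrix.toLin'.injective
    apply LinearMap.ext
    intro v
    rw [Matrix.toLin'_apply, Matrix.toLin'_apply, ← Matrix.mulVec_mulVec, hDv, hDv, hεD]
  have G := fun t x => h Idx (Fin 8) (D t x) (ε x) (hεs x) (hεi x) (hDε t x)
    (fun v hv hv2 => hinj t x v hv (by rw [← hDv]; exact hv2))
  have hND : ∀ t x, (NN (Ψ t x 0))ᵀ * D t x = 0 := by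
    intro t x
    ext k l
    rw [Matrix.mul_apply, Matrix.zero_apply]
    have h0 := tang (hslice t x) (hV t x) (Pi.single l 1)
    rcases k with k | k
    · rw [← h0.1 k, dotProduct]
      exact Finset.sum_congr rfl fun i _ => by rw [Matrix.transpose_apply, NN_inl, hDe]
    · rw [← h0.2, dotProduct]
      exact Finset.sum_congr rfl fun i _ => by rw [Matrix.transpose_apply, NN_inr, hDe]
  set Q : ℝ → Ang → Matrix (Fin 8) (Fin 8) ℝ := fun t x =>
    ((D t x)ᵀ * D t x + (1 - ε x))⁻¹ with hQ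
  have P := fun t x => proj_alg (NN (Ψ t x 0)) (D t x) (Q t x) (NN_orth _ (hV t x 0)) (hND t x)
    (G t x).2.1 (G t x).2.2.1 (G t x).2.2.2.1
  have hNsm : MS (fun q : ℝ × Ang => NN (Ψ q.1 q.2 0)) := by
    have h1 : ContDiff ℝ ∞ (fun q : ℝ × Ang => Ψ q.1 q.2 0) :=
      hΨ.comp (contDiff_fst.prodMk (contDiff_snd.prodMk contDiff_const))
    have h2 := contDiff_pi.1 h1
    intro i k
    rcases k with k | k
    · simp only [NN_inl]
      rcases i with i | i | i
      · by_cases hik : i = k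
        · simp only [norC, Sum.elim_inl, hik, if_true, cc]; exact h2 _
        · simp only [norC, Sum.elim_inl, hik, if_false]; exact contDiff_const
      · by_cases hik : i = k
        · simp only [norC, Sum.elim_inl, Sum.elim_inr, hik, if_true, ss]; exact h2 _
        · simp only [norC, Sum.elim_inl, Sum.elim_inr, hik, if_false]; exact contDiff_const
      · simp only [norC, Sum.elim_inr]; exact contDiff_const
    · simp only [NN_inr]
      rcases i with i | i | i
      · simp only [norS, Sum.elim_inl]; exact contDiff_const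
      · simp only [norS, Sum.elim_inl, Sum.elim_inr]; exact contDiff_const
      · simp only [norS, Sum.elim_inr, ww]; exact h2 _
  have hεsm : MS (fun q : ℝ × Ang => ε q.2) := fun i j => (hε i j).1.comp contDiff_snd
  have hQsm : MS (fun q : ℝ × Ang => Q q.1 q.2) :=
    MS.inv ((hDsm.transpose.mul hDsm).add ((MS.const 1).sub hεsm)) (fun q => (G q.1 q.2).1)
  have htr : ∀ t x, (D t x * Q t x * (D t x)ᵀ).trace = 6 := fun t x => by
    rw [(G t x).2.2.2.2, hεt]
  have htp : ∀ t x, (1 - NN (Ψ t x 0) * (NN (Ψ t x 0))ᵀ -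
      D t x * Q t x * (D t x)ᵀ).trace = 2 := by
    intro t x
    rw [(P t x).2.2.1, htr]
    simp only [Fintype.card_sum, Fintype.card_fin, Fintype.card_unit]
    norm_num
  refine ⟨fun t x => 1 - NN (Ψ t x 0) * (NN (Ψ t x 0))ᵀ - D t x * Q t x * (D t x)ᵀ,
    ?_, ?_, ?_, ?_, ?_, ?_, ?_, ?_, ?_, ?_⟩
  · exact ((MS.const 1).sub (hNsm.mul hNsm.transpose)).sub
      ((hDsm.mul hQsm).mul hDsm.transpose)
  · intro t x k
    have e1 : ε (x + Pi.single k (2 * Real.pi)) = ε x := by
      ext i j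
      exact (hε i j).2 x k
    simp only [hQ, hDper, hper, e1]
  · exact fun t x => (P t x).1
  · exact fun t x => (P t x).2.1
  · exact htp
  · intro t x u
    rw [← hDv, Matrix.mulVec_mulVec, (P t x).2.2.2.1, Matrix.zero_mulVec]
  · intro t x j
    have := (P t x).2.2.2.2.1
    funext i
    exact congrFun (congrFun this i) (Sum.inl j)
  · intro t x
    have := (P t x).2.2.2.2.1
    funext i
    exact congrFun (congrFun this i) (Sum.inr ())
  · intro t x
    have h1 := rank_alg (D t x) (Q t x) (G t x).2.2.1 (G t x).2.2.2.1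
    rw [htr, hDdef, Matrix.toLin'_toMatrix'] at h1
    exact_mod_cast h1
  · intro t x q hqs hqi hqt hqD hqC hqS
    apply (P t x).2.2.2.2.2 q hqs hqi (by rw [hqt]; exact (htp t x).symm)
    · apply Matrix.toLin'.injective
      apply LinearMap.ext
      intro v
      rw [Matrix.toLin'_apply, Matrix.toLin'_apply, ← Matrix.mulVec_mulVec, hDv, hqD,
        Matrix.zero_mulVec]
    · ext i k
      rcases k with k | k
      · exact congrFun (hqC k) i
      · exact congrFun hqS i

end

end Pool.Agent.Helper18.AC
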